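import Pool.Agent.L7h8.DD.Defs
import Pool.Agent.Helper270.WPB

/-!
# The theorem of Novikov and Boone, from the library

`Pool.Agent.Helper270.WP.word_problem` in the form used for MP_d40431_gt.
-/

set_option autoImplicit false

namespace Pool.Agent.L7h80.DD

open Pool.Agent.L7h8.DD

/-- **The theorem of Novikov and Boone**: there is a finitely presented group with unsolvable word
problem. -/
theorem novikovBoone : NovikovBoone := by
  obtain ⟨m, R, W, hW, hn⟩ := Pool.Agent.Helper270.WP.word_problem
  refine ⟨m, R.toList.map FreeGroup.toWord, fun hc => hn ?_⟩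
  have hset : {g : FreeGroup (Fin m) | ∃ r ∈ R.toList.map FreeGroup.toWord,
      g = FreeGroup.mk r} = (R : Set (FreeGroup (Fin m))) := by
    ext g
    simp only [List.mem_map, Finset.mem_toList, Set.mem_ofPred_eq, Finset.mem_coe]
    constructor
    · rintro ⟨r, ⟨h, hh, rfl⟩, rfl⟩
      rwa [FreeGroup.mk_toWord]
    · intro hg
      exact ⟨g.toWord, ⟨g, hg, rfl⟩, (FreeGroup.mk_toWord).symm⟩
  obtain ⟨f, hf, hfe⟩ := ComputablePred.computable_iff.1 hc
  refine ComputablePred.computable_iff.2 ⟨fun n => f (W n), hf.comp hW, ?_⟩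
  funext n
  have h1 := congrFun hfe (W n)
  rw [← h1]
  unfold IsTrivial
  rw [hset]

end Pool.Agent.L7h80.DD
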